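import Pool.Agent.R401.DS
import Pool.Agent.R401.Avg

/-!
# The theorem of Deligne and Serre for `GL_n`

Let `π` be a cuspidal automorphic representation of `GL_n` over `ℚ` which is algebraic of Galois
type: the Langlands parameter of `π_∞ ⊗ |det|^((1-n)/2)` is trivial on `ℂ^×`.  (For `n = 2`: the
weight-one newforms, and the Maass forms of eigenvalue `1/4`.)  Conjecturally the representations
`ρ_π` have finite image and come from one Artin representation.  We prove for every `n`: if

* the characteristic polynomials `f_p` of the classes `a_{π_p}` have coefficients in the ring of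
  integers of a number field `K`,
* for every embedding `σ` of `K` the traces satisfy the mean square bound of Rankin and Selberg,
  `∑_{p ≤ x} |σ(tr f_p)|^2 = O(π(x))`,
* for infinitely many primes `ℓ` (no others are needed) there is a representation over some field
  of characteristic `ℓ` attached to `π` modulo a prime above `ℓ`,

then there is an Artin representation attached to `π`, hence for every prime `ℓ` and every
isomorphism `ℚbar_ℓ ≅ ℂ` a continuous semisimple `ρ_π` corresponding to `π_p` at every unramified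
prime `p` (also at `p = ℓ`).

For `n = 2` this is the criterion of Deligne and Serre (1974); their proof uses the classification
of the subgroups of `GL_2(𝔽_ℓ)`.  Nothing of this kind is used here: the order of the image of a
semisimple representation is bounded by a counting argument with the trace form (at most `n ^ 2`
translates of an element have to be of good trace), for `ℓ > n`.  Chebotarev's theorem is proved in
the library.
-/

set_option autoImplicit false

namespace Pool.Agent.Results.MP_ef641d_nt.DeligneSerreGLn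

open NumberField Polynomial Matrix

/-- `Q` is a prime ideal above the prime number `p` of the ring of all algebraic integers. -/
def PrimeOver (p : ℕ) (Q : Ideal (𝓞 (AlgebraicClosure ℚ))) : Prop :=
  Q.IsPrime ∧ (p : 𝓞 (AlgebraicClosure ℚ)) ∈ Q

/-- `g` is in the inertia group at `Q`. -/
def IsInertia (Q : Ideal (𝓞 (AlgebraicClosure ℚ))) (g : Gal(AlgebraicClosure ℚ/ℚ)) : Prop :=
  ∀ x : 𝓞 (AlgebraicClosure ℚ), g • x - x ∈ Q

/-- `g` is an (arithmetic) Frobenius element at the prime ideal `Q` above `p`. -/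
def IsFrobenius (p : ℕ) (Q : Ideal (𝓞 (AlgebraicClosure ℚ))) (g : Gal(AlgebraicClosure ℚ/ℚ)) :
    Prop := ∀ x : 𝓞 (AlgebraicClosure ℚ), g • x - x ^ p ∈ Q

variable {k : Type} [Field k] {n : ℕ}

/-- The matrix of `g`. -/
noncomputable def mat (ρ : Gal(AlgebraicClosure ℚ/ℚ) →* GL (Fin n) k)
    (g : Gal(AlgebraicClosure ℚ/ℚ)) : Matrix (Fin n) (Fin n) k := (ρ g : GL (Fin n) k)

/-- The representation `ρ` is unramified at `p`, and every geometric Frobenius element at `p` has
the characteristic polynomial `f`. -/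
structure AttachedAt (ρ : Gal(AlgebraicClosure ℚ/ℚ) →* GL (Fin n) k) (p : ℕ) (f : k[X]) :
    Prop where
  unramified : ∀ Q, PrimeOver p Q → ∀ g, IsInertia Q g → ρ g = 1
  frobenius : ∀ Q, PrimeOver p Q → ∀ g, IsFrobenius p Q g → (mat ρ g⁻¹).charpoly = f

/-- `U` is a subrepresentation of `ρ`. -/
def Stable (ρ : Gal(AlgebraicClosure ℚ/ℚ) →* GL (Fin n) k) (U : Submodule k (Fin n → k)) : Prop :=
  ∀ g, ∀ x ∈ U, mat ρ g *ᵥ x ∈ U

/-- `ρ` is semisimple. -/
def Semisimple (ρ : Gal(AlgebraicClosure ℚ/ℚ) →* GL (Fin n) k) : Prop :=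
  ∀ U, Stable ρ U → ∃ U', Stable ρ U' ∧ IsCompl U U'

/-- The kernel of `ρ` is open: `ρ` is continuous for the discrete topology of `GL_n(k)`. -/
def OpenKernel (ρ : Gal(AlgebraicClosure ℚ/ℚ) →* GL (Fin n) k) : Prop :=
  IsOpen (ρ.ker : Set Gal(AlgebraicClosure ℚ/ℚ))

/-- The prime numbers up to `x` which are not in the set `B`. -/
def primesUpTo (B : Set ℕ) (x : ℕ) : Set ℕ := {p | p ≤ x ∧ p.Prime ∧ p ∉ B}

/-- **Deligne–Serre for `GL_n`.**

Let `B` be a finite set of primes (in the application the primes where `π` is ramified), `K` a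
number field and `f p`, for the primes `p ∉ B`, polynomials over the ring of integers of `K` (in the
application, with an embedding of `K` in `ℂ`, the characteristic polynomial of the class
`a_{π_p}`), such that

* `hRS`: for every embedding of `K` in `ℂ` the mean square over the primes `p ≤ x` of the coefficient
  of degree `n - 1` of `f p` (up to the sign the trace) is bounded,
* `hmod`: there are infinitely many primes `ℓ` such that for some field `k` of characteristic `ℓ` and
  some homomorphism `φ : 𝓞 K → k` there is a semisimple `ρ : Gal(ℚbar/ℚ) → GL_n(k)` with open kernel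
  attached to the polynomials `φ(f p)` at all primes `p ∉ B`, `p ≠ ℓ`.

Then there is an Artin representation over a finite extension `L` of `K` attached to the polynomials
`f p` for all primes `p ∉ B`; and for every prime `ℓ`, isomorphism `ι : ℚbar_ℓ ≅ ℂ` and embedding
`σ : K → ℂ` there is a continuous semisimple `ρ : Gal(ℚbar/ℚ) → GL_n(ℚbar_ℓ)`, with finite image,
attached to the polynomials `ι⁻¹(σ(f p))` for all primes `p ∉ B`. -/
theorem result {K : Type} [Field K] [NumberField K] {n : ℕ} (hn : 0 < n) (B : Set ℕ)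
    (hB : B.Finite) (f : ℕ → (𝓞 K)[X])
    (hRS : ∀ σ : K →+* ℂ, ∃ C : ℝ, ∀ x : ℕ,
      ∑ᶠ p ∈ primesUpTo B x, ‖σ ((f p).coeff (n - 1))‖ ^ 2 ≤ C * Nat.primeCounting x)
    (hmod : ∀ N : ℕ, ∃ ℓ, N < ℓ ∧ ℓ.Prime ∧ ∃ (k : Type) (_ : Field k) (_ : CharP k ℓ)
      (φ : 𝓞 K →+* k) (ρ : Gal(AlgebraicClosure ℚ/ℚ) →* GL (Fin n) k), OpenKernel ρ ∧
        Semisimple ρ ∧ ∀ p, p.Prime → p ∉ B → p ≠ ℓ → AttachedAt ρ p ((f p).map φ)) :
    (∃ (L : Type) (_ : Field L) (_ : Algebra K L), FiniteDimensional K L ∧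
      ∃ R : Gal(AlgebraicClosure ℚ/ℚ) →* GL (Fin n) L, OpenKernel R ∧
        ∀ p, p.Prime → p ∉ B →
          AttachedAt R p ((f p).map ((algebraMap K L).comp (algebraMap (𝓞 K) K)))) ∧
    ∀ (ℓ : ℕ) [Fact ℓ.Prime] (ι : PadicAlgCl ℓ ≃+* ℂ) (σ : K →+* ℂ),
      ∃ ρ : Gal(AlgebraicClosure ℚ/ℚ) →* GL (Fin n) (PadicAlgCl ℓ), Continuous ρ ∧ OpenKernel ρ ∧
        Semisimple ρ ∧ ∀ p, p.Prime → p ∉ B → AttachedAt ρ p
          ((f p).map (ι.symm.toRingHom.comp (σ.comp (algebraMap (𝓞 K) K)))) := by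
  obtain ⟨L, iL, iA, hfd, R, hRo, hR⟩ := Pool.Agent.R401.DS.main hn hB f hRS (by
    intro N
    obtain ⟨ℓ, hN, hℓ, k, ik, ic, φ, ρ, h1, h2, h3⟩ := hmod N
    exact ⟨ℓ, hN, hℓ, k, ik, ic, φ, ρ, h1, h2, fun p hp hpB hpℓ =>
      ⟨fun Q hQ hpQ g hg => (h3 p hp hpB hpℓ).unramified Q ⟨hQ, hpQ⟩ g hg,
        fun Q hQ hpQ g hg => (h3 p hp hpB hpℓ).frobenius Q ⟨hQ, hpQ⟩ g hg⟩⟩)
  refine ⟨⟨L, iL, iA, hfd, R, hRo, fun p hp hpB =>
    ⟨fun Q hQ g hg => (hR p hp hpB).unr Q hQ.1 hQ.2 g hg,
      fun Q hQ g hg => (hR p hp hpB).frob Q hQ.1 hQ.2 g hg⟩⟩, ?_⟩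
  intro ℓ _ ι σ
  let _ : Algebra K (PadicAlgCl ℓ) := (ι.symm.toRingHom.comp σ).toAlgebra
  have : Algebra.IsAlgebraic K L := Algebra.IsAlgebraic.of_finite K L
  let j : L →ₐ[K] PadicAlgCl ℓ := IsAlgClosed.lift
  have hj : ∀ x : K, j (algebraMap K L x) = ι.symm (σ x) := fun x => j.commutes x
  set ρ : Gal(AlgebraicClosure ℚ/ℚ) →* GL (Fin n) (PadicAlgCl ℓ) :=
    (Matrix.GeneralLinearGroup.map j.toRingHom).comp R with hρ
  have hker : ∀ g, R g = 1 → ρ g = 1 := by
    intro g hg
    change Matrix.GeneralLinearGroup.map j.toRingHom (R g) = 1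
    rw [hg, map_one]
  have hopen : OpenKernel ρ := Subgroup.isOpen_mono (H₁ := R.ker) (fun g hg => hker g hg) hRo
  have hmat : ∀ g, mat ρ g = (mat R g).map j.toRingHom := fun g => rfl
  refine ⟨ρ, ?_, hopen, ?_, ?_⟩
  · exact Pool.Agent.R401.Img.continuous_of_open ρ hopen
  · exact Pool.Agent.R401.Img.SS_of_open ρ hopen
  · intro p hp hpB
    constructor
    · intro Q hQ g hg
      exact hker g ((hR p hp hpB).unr Q hQ.1 hQ.2 g hg)
    · intro Q hQ g hg
      rw [hmat, Matrix.charpoly_map]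
      have h1 : (mat R g⁻¹).charpoly = _ := (hR p hp hpB).frob Q hQ.1 hQ.2 g hg
      rw [h1, Polynomial.map_map]
      congr 1
      ext x
      exact hj _

end Pool.Agent.Results.MP_ef641d_nt.DeligneSerreGLn
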