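import Pool.Agent.R386.PA.Gal

/-!
# Galois representations attached to automorphic representations: descent from arbitrary number fields

Let `π` be an algebraic cuspidal automorphic representation of `GL_n` over `ℚ`, unramified outside of
the finite set `B` of primes (we put `ℓ` in `B`), and `f_p` the characteristic polynomial of the class
`a_{π_p}`, transported to `ℚbar_ℓ`.  For a number field `F` the base change of `π` to `F`
(conjectural in general) has the class `a_{π_p}` at a place of `F` of degree one above `p`.  So a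
representation of `Gal(ℚbar/F)` attached to the base change is unramified at the places above
`p ∉ B` and the Frobenius elements at the places of degree one above `p` have the characteristic
polynomial `f_p`.  These are the only conditions which we use.

We prove that such representations over number fields `F` of any degree and with any Galois closures
can be patched:

* if there is a representation over one number field `F₁` then there is a finite Galois extension
  `M` of `ℚ` such that the existence of a representation over any one number field `F` with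
  `F ∩ M = ℚ` implies the existence of a representation over `ℚ`; so a failure of the
  conjecture for `π` and `ℓ` persists over all number fields which are linearly disjoint from a fixed
  one;
* if there is a representation over every field of a family of number fields `F_i`, and
  for every number field `M` there is an `i` with `F_i ∩ M = ℚ`, then all the representations are
  restrictions of one representation over `ℚ`.

For cyclic extensions of prime degree this is the patching lemma of Blasius and Rogawski, Harris and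
Taylor, and Sorensen.
-/

set_option autoImplicit false

namespace Pool.Agent.Results.MP_ef641d_nt.DescentFromDisjointFields

open NumberField Polynomial Matrix
open Pool.Agent.R386.PA (AttOn GoodP RepOn SemisOn ex ex_val ex_rep ex_cont cj hom hom_val hom_cont
  semis_hom exists_good exists_field cover compat two two' cont_of continuousOn_cj att_of_good family
  bn semis_restrict)

/-- The absolute Galois group of the field `k`. -/
abbrev AbsGal (k : Type) [Field k] : Type := Gal(AlgebraicClosure k/k)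

/-- The absolute Galois group of `ℚ`. -/
abbrev GQ : Type := AbsGal ℚ

/-- The fields between the field `k` and its algebraic closure. -/
abbrev SubField (k : Type) [Field k] : Type := IntermediateField k (AlgebraicClosure k)

/-- The ring of all algebraic integers. -/
abbrev ZBar : Type := 𝓞 (AlgebraicClosure ℚ)

/-- `P` is a maximal ideal above the prime number `p` of the ring of all algebraic integers. -/
def PrimeOver (p : ℕ) (P : Ideal ZBar) : Prop := P.IsMaximal ∧ (p : ZBar) ∈ P

/-- `g` is in the inertia group at `P`. -/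
def IsInertia (P : Ideal ZBar) (g : GQ) : Prop := ∀ x : ZBar, g • x - x ∈ P

/-- `g` is a geometric Frobenius element at the prime ideal `P` above `p`: it induces the inverse of
`x ↦ x ^ p` on the residue field.  If such a `g` is in `Gal(ℚbar/F)`, the place of `F` below `P` has
residue degree one, and `g` is a Frobenius element at this place. -/
def IsGeomFrobenius (p : ℕ) (P : Ideal ZBar) (g : GQ) : Prop := ∀ x : ZBar, x - (g • x) ^ p ∈ P

variable {ℓ : ℕ} [Fact ℓ.Prime] {n : ℕ} {F : SubField ℚ}

/-- The matrix of `g`. -/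
noncomputable def mat (ρ : F.fixingSubgroup →* GL (Fin n) (PadicAlgCl ℓ)) (g : F.fixingSubgroup) :
    Matrix (Fin n) (Fin n) (PadicAlgCl ℓ) := (ρ g : GL (Fin n) (PadicAlgCl ℓ))

/-- `ρ` is semisimple. -/
def Semisimple (ρ : F.fixingSubgroup →* GL (Fin n) (PadicAlgCl ℓ)) : Prop :=
  ∀ U : Submodule (PadicAlgCl ℓ) (Fin n → PadicAlgCl ℓ), (∀ g, ∀ x ∈ U, mat ρ g *ᵥ x ∈ U) →
    ∃ U' : Submodule (PadicAlgCl ℓ) (Fin n → PadicAlgCl ℓ), (∀ g, ∀ x ∈ U', mat ρ g *ᵥ x ∈ U') ∧
      IsCompl U U'

/-- The representation `ρ` of `Gal(ℚbar/F)` is unramified at all places of `F` above `p`, and the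
geometric Frobenius elements at the places of `F` of residue degree one above `p` have the
characteristic polynomial `f`. -/
structure AttachedAt (ρ : F.fixingSubgroup →* GL (Fin n) (PadicAlgCl ℓ)) (p : ℕ)
    (f : (PadicAlgCl ℓ)[X]) : Prop where
  unramified : ∀ P, PrimeOver p P → ∀ g : F.fixingSubgroup, IsInertia P g → ρ g = 1
  frobenius : ∀ P, PrimeOver p P → ∀ g : F.fixingSubgroup, IsGeomFrobenius p P g →
    (mat ρ g).charpoly = f

/-- `ρ` is a continuous semisimple representation of `Gal(ℚbar/F)` which is attached to the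
polynomials `f p` at all prime numbers `p` which are not in `B`. -/
structure IsAttached (B : Set ℕ) (f : ℕ → (PadicAlgCl ℓ)[X])
    (ρ : F.fixingSubgroup →* GL (Fin n) (PadicAlgCl ℓ)) : Prop where
  continuous : Continuous ρ
  semisimple : Semisimple ρ
  attached : ∀ p, p.Prime → p ∉ B → AttachedAt ρ p (f p)

/-- The prime number `p` has in `F` a place of residue degree one which is unramified over `p`. -/
def HasSplitPlace (F : SubField ℚ) (p : ℕ) : Prop :=
  ∃ P, PrimeOver p P ∧ (∀ g : GQ, IsInertia P g → g ∈ F.fixingSubgroup) ∧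
    ∃ g ∈ F.fixingSubgroup, IsGeomFrobenius p P g

/-- The representation `ρ` of `Gal(ℚbar/ℚ)` corresponds to `f` at `p`: it is unramified at `p`
and the geometric Frobenius elements have the characteristic polynomial `f`. -/
structure CorrespondsAt (ρ : GQ →* GL (Fin n) (PadicAlgCl ℓ)) (p : ℕ) (f : (PadicAlgCl ℓ)[X]) :
    Prop where
  unramified : ∀ P, PrimeOver p P → ∀ g, IsInertia P g → ρ g = 1
  frobenius : ∀ P, PrimeOver p P → ∀ g, IsGeomFrobenius p P g →
    (ρ g : Matrix (Fin n) (Fin n) (PadicAlgCl ℓ)).charpoly = f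

/-- The representation `ρ` of `Gal(ℚbar/ℚ)` is semisimple. -/
def SemisimpleQ (ρ : GQ →* GL (Fin n) (PadicAlgCl ℓ)) : Prop :=
  ∀ U : Submodule (PadicAlgCl ℓ) (Fin n → PadicAlgCl ℓ),
    (∀ g, ∀ x ∈ U, (ρ g : Matrix (Fin n) (Fin n) (PadicAlgCl ℓ)) *ᵥ x ∈ U) →
    ∃ U' : Submodule (PadicAlgCl ℓ) (Fin n → PadicAlgCl ℓ),
      (∀ g, ∀ x ∈ U', (ρ g : Matrix (Fin n) (Fin n) (PadicAlgCl ℓ)) *ᵥ x ∈ U') ∧ IsCompl U U'

/-- The restriction of `ρ` to `Gal(ℚbar/F)` is isomorphic to `ρ'`. -/
def RestrictsTo (ρ : GQ →* GL (Fin n) (PadicAlgCl ℓ))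
    (ρ' : F.fixingSubgroup →* GL (Fin n) (PadicAlgCl ℓ)) : Prop :=
  ∃ A : GL (Fin n) (PadicAlgCl ℓ), ∀ g : F.fixingSubgroup, ρ g = A * ρ' g * A⁻¹

/-- **Descent of attached Galois representations from arbitrary number fields.**

Let `B` be a finite set of prime numbers and `f p` polynomials over `ℚbar_ℓ`.

(1) For every number field `F₁` and every representation `ρ₁` of `Gal(ℚbar/F₁)` attached to
`f` there is a finite Galois extension `M` of `ℚ`, containing `F₁`, such that for every number
field `F` with `F ∩ M = ℚ` and every representation `ρ'` of `Gal(ℚbar/F)` attached to `f` there is a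
continuous semisimple `ρ : Gal(ℚbar/ℚ) → GL_n(ℚbar_ℓ)` with the restrictions `ρ'` to `Gal(ℚbar/F)`
and `ρ₁` to `Gal(ℚbar/F₁)`; it corresponds to `f p` at all prime numbers `p ∉ B` which have
in `F` or in `F₁` an unramified place of degree one.

(2) Let `F i` be a family of number fields such that for every number field `M` there is an `i` with
`F i ∩ M = ℚ`, and let `ρ' i` be representations of the groups `Gal(ℚbar/F i)` attached to `f`. Then
there is a continuous semisimple `ρ : Gal(ℚbar/ℚ) → GL_n(ℚbar_ℓ)` such that `ρ' i` is the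
restriction of `ρ` for every `i`; it corresponds to `f p` at all prime numbers `p ∉ B` which
have in some `F i` an unramified place of degree one. -/
theorem result (B : Set ℕ) (hB : B.Finite) (f : ℕ → (PadicAlgCl ℓ)[X]) :
    (∀ (F₁ : SubField ℚ) [FiniteDimensional ℚ F₁]
      (ρ₁ : F₁.fixingSubgroup →* GL (Fin n) (PadicAlgCl ℓ)), IsAttached B f ρ₁ →
      ∃ M : SubField ℚ, F₁ ≤ M ∧ FiniteDimensional ℚ M ∧
        (∀ g : GQ, ∀ x ∈ M, g x ∈ M) ∧
        ∀ (F : SubField ℚ) [FiniteDimensional ℚ F],
          F ⊓ M = ⊥ → ∀ ρ' : F.fixingSubgroup →* GL (Fin n) (PadicAlgCl ℓ), IsAttached B f ρ' →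
          ∃ ρ : GQ →* GL (Fin n) (PadicAlgCl ℓ), Continuous ρ ∧ SemisimpleQ ρ ∧
            RestrictsTo ρ ρ' ∧ RestrictsTo ρ ρ₁ ∧
            ∀ p, p.Prime → p ∉ B → HasSplitPlace F p ∨ HasSplitPlace F₁ p →
              CorrespondsAt ρ p (f p)) ∧
    (∀ (ι : Type) (F : ι → SubField ℚ),
      (∀ i, FiniteDimensional ℚ (F i)) →
      (∀ M : SubField ℚ, FiniteDimensional ℚ M →
        ∃ i, F i ⊓ M = ⊥) →
      ∀ ρ' : ∀ i, (F i).fixingSubgroup →* GL (Fin n) (PadicAlgCl ℓ),
        (∀ i, IsAttached B f (ρ' i)) →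
        ∃ ρ : GQ →* GL (Fin n) (PadicAlgCl ℓ), Continuous ρ ∧ SemisimpleQ ρ ∧
          (∀ i, RestrictsTo ρ (ρ' i)) ∧
          ∀ p, p.Prime → p ∉ B → (∃ i, HasSplitPlace (F i) p) → CorrespondsAt ρ p (f p)) := by
  classical
  have hBf : ∀ p, p ∉ hB.toFinset ↔ p ∉ B := fun p => by rw [Set.Finite.mem_toFinset]
  -- translation
  have hopen : ∀ (F : SubField ℚ) [FiniteDimensional ℚ F],
      IsOpen (F.fixingSubgroup : Set GQ) := fun F _ => IntermediateField.fixingSubgroup_isOpen F
  have hatt : ∀ (F : SubField ℚ)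
      (ρ : F.fixingSubgroup →* GL (Fin n) (PadicAlgCl ℓ)), IsAttached B f ρ →
      ∀ p, p.Prime → p ∉ hB.toFinset → AttOn F.fixingSubgroup (ex ρ) p (f p) := by
    intro F ρ hρ p hp hpB
    have h1 := hρ.attached p hp ((hBf p).1 hpB)
    constructor
    · intro P hP hpP g hg hin
      rw [ex_val ρ hg, h1.unramified P ⟨hP, hpP⟩ ⟨g, hg⟩ hin, Units.val_one]
    · intro P hP hpP g hg hfr
      rw [ex_val ρ hg]
      exact h1.frobenius P ⟨hP, hpP⟩ ⟨g, hg⟩ hfr
  have hsem : ∀ (F : SubField ℚ)
      (ρ : F.fixingSubgroup →* GL (Fin n) (PadicAlgCl ℓ)), IsAttached B f ρ →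
      SemisOn F.fixingSubgroup (ex ρ) := by
    intro F ρ hρ U hU
    obtain ⟨U', hU', hc⟩ := hρ.semisimple U (fun g x hx => by
      have := hU g g.2 x hx
      rwa [ex_val ρ g.2] at this)
    refine ⟨U', fun g hg x hx => ?_, hc⟩
    rw [ex_val ρ hg]
    exact hU' ⟨g, hg⟩ x hx
  have hres : ∀ (F : SubField ℚ)
      (ρ : F.fixingSubgroup →* GL (Fin n) (PadicAlgCl ℓ))
      {R : GQ → Matrix (Fin n) (Fin n) (PadicAlgCl ℓ)} (hR : RepOn ⊤ R)
      (A : GL (Fin n) (PadicAlgCl ℓ)), (∀ g ∈ F.fixingSubgroup, R g = cj A (ex ρ) g) →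
      RestrictsTo (hom hR) ρ := by
    intro F ρ R hR A hA
    refine ⟨A, fun g => ?_⟩
    apply Units.ext
    rw [hom_val, hA g g.2, Units.val_mul, Units.val_mul]
    change _ * ex ρ g * _ = _
    rw [ex_val ρ g.2]
  have hcor : ∀ {R : GQ → Matrix (Fin n) (Fin n) (PadicAlgCl ℓ)} (hR : RepOn ⊤ R) (p : ℕ)
      (q : (PadicAlgCl ℓ)[X]), AttOn ⊤ R p q → CorrespondsAt (hom hR) p q := by
    intro R hR p q h
    constructor
    · intro P hP g hg
      apply Units.ext
      rw [hom_val, h.unr P hP.1 hP.2 g trivial hg, Units.val_one]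
    · intro P hP g hg
      exact h.frob P hP.1 hP.2 g trivial hg
  have hgd : ∀ {F : SubField ℚ} {p : ℕ}, HasSplitPlace F p →
      GoodP F.fixingSubgroup p := by
    rintro F p ⟨P, hP, h1, g, hg, h2⟩
    exact ⟨P, hP.1, hP.2, h1, g, hg, h2⟩
  constructor
  · intro F₁ _ ρ₁ hρ₁
    obtain ⟨N, hNn, hN, hNH, hgood⟩ := exists_good (hopen F₁) (ex ρ₁)
    obtain ⟨M, hM, hMs, hMN⟩ := exists_field hNn hN
    refine ⟨M, ?_, hM, hMs, ?_⟩
    · have h1 := InfiniteGalois.fixedField_fixingSubgroup F₁
      have h2 := InfiniteGalois.fixedField_fixingSubgroup M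
      rw [← h1, ← h2, hMN]
      exact IntermediateField.fixedField_antitone hNH
    intro F _ hFM ρ' hρ'
    have hcov : ∀ g, ∃ h ∈ F.fixingSubgroup, h⁻¹ * g ∈ N := by
      intro g
      rw [← hMN]
      exact cover hMs hFM g
    have hcomp : ∀ x ∈ F.fixingSubgroup, x ∈ F₁.fixingSubgroup →
        (ex ρ' x).trace = (ex ρ₁ x).trace := by
      intro x hx hx'
      have h1 := compat (hopen F) (hopen F₁) (ex_cont ρ' hρ'.continuous)
        (ex_cont ρ₁ hρ₁.continuous) (hatt F ρ' hρ') (hatt F₁ ρ₁ hρ₁) 1 x hx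
        (by rwa [one_mul, inv_one, mul_one])
      rwa [one_mul, inv_one, mul_one] at h1
    obtain ⟨R, hR, hsR, hRH, A, hRN⟩ := two hNn hN ((ex_rep ρ₁).mono hNH)
      (semis_restrict (ex_rep ρ₁) (hsem F₁ ρ₁ hρ₁) hNH hN) hgood (by
        intro g m hm
        exact (compat (hopen F₁) (hopen F₁) (ex_cont ρ₁ hρ₁.continuous)
          (ex_cont ρ₁ hρ₁.continuous) (hatt F₁ ρ₁ hρ₁) (hatt F₁ ρ₁ hρ₁) g m (hNH hm)
          (hNH (hNn.conj_mem m hm g))).symm) (hopen F) (ex_rep ρ') (hsem F ρ' hρ') hcov
      (fun x hx hx' => hcomp x hx (hNH hx'))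
    have hcont : Continuous R := by
      apply cont_of hN hR
      exact (continuousOn_cj ((ex_cont ρ₁ hρ₁.continuous).mono hNH) A).congr hRN
    obtain ⟨A', hA'⟩ := two' hN hNH (hopen F₁) (ex_rep ρ₁) (hsem F₁ ρ₁ hρ₁) hgood (hopen F) hcov
      hcomp hR hsR hRH hRN
    have hRF : ∀ g ∈ F.fixingSubgroup, R g = cj 1 (ex ρ') g := by
      intro g hg
      rw [hRH g hg]
      change ex ρ' g = (1 : Matrix (Fin n) (Fin n) (PadicAlgCl ℓ)) * ex ρ' g * _
      rw [inv_one, one_mul, Units.val_one, mul_one]
    refine ⟨hom hR, hom_cont hR hcont, semis_hom hR hsR, hres F ρ' hR 1 hRF,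
      hres F₁ ρ₁ hR A' hA', fun p hp hpB hgp => hcor hR p _ ?_⟩
    rcases hgp with hgp | hgp
    · exact att_of_good hR hRF hp (hatt F ρ' hρ' p hp ((hBf p).2 hpB)) (hgd hgp)
    · exact att_of_good hR hA' hp (hatt F₁ ρ₁ hρ₁ p hp ((hBf p).2 hpB)) (hgd hgp)
  · intro ι F hF hgen ρ' hρ'
    obtain ⟨R, hR, hsR, hcont, htr⟩ := family (fun i => (F i).fixingSubgroup)
      (fun i => ex (ρ' i)) (fun i => hopen (F i)) (fun i => ex_rep (ρ' i))
      (fun i => hsem _ _ (hρ' i)) (fun i => ex_cont (ρ' i) (hρ' i).continuous) (by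
        intro i j g h hh hh'
        exact compat (hopen (F i)) (hopen (F j)) (ex_cont _ (hρ' i).continuous)
          (ex_cont _ (hρ' j).continuous) (hatt _ _ (hρ' i)) (hatt _ _ (hρ' j)) g h hh hh') (by
        intro N hNn hN
        obtain ⟨M, hM, hMs, hMN⟩ := exists_field hNn hN
        obtain ⟨i, hi⟩ := hgen M hM
        refine ⟨i, fun g => ?_⟩
        rw [← hMN]
        exact cover hMs hi g)
    have hconj : ∀ i, ∃ A : GL (Fin n) (PadicAlgCl ℓ), ∀ g ∈ (F i).fixingSubgroup,
        R g = cj A (ex (ρ' i)) g := by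
      intro i
      obtain ⟨A, hA⟩ := bn (ex_rep (ρ' i)) (hR.mono (le_top : (F i).fixingSubgroup ≤ ⊤))
        (hsem _ _ (hρ' i)) (semis_restrict hR hsR le_top (hopen (F i)))
        (fun g hg => (htr i g hg).symm)
      refine ⟨A, fun g hg => ?_⟩
      change R g = (A : Matrix (Fin n) (Fin n) (PadicAlgCl ℓ)) * ex (ρ' i) g * _
      rw [← hA g hg, Units.mul_inv_cancel_right]
    refine ⟨hom hR, hom_cont hR hcont, semis_hom hR hsR, fun i => ?_, ?_⟩
    · obtain ⟨A, hA⟩ := hconj i
      exact hres _ _ hR A hA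
    · rintro p hp hpB ⟨i, hi⟩
      obtain ⟨A, hA⟩ := hconj i
      exact hcor hR p _ (att_of_good hR hA hp (hatt _ _ (hρ' i) p hp ((hBf p).2 hpB)) (hgd hi))

end Pool.Agent.Results.MP_ef641d_nt.DescentFromDisjointFields
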