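import Pool.Agent.R401.Intg

/-!
# Existence of the Galois representations implies arithmeticity

Let `π` be an algebraic cuspidal automorphic representation of `GL_n` over `ℚ`, unramified outside
of the finite set `B` of primes, and `f_p` the characteristic polynomial of the class `a_{π_p}`.
It is a conjecture of Clozel that the coefficients of all `f_p` lie in one number field (known for
regular `π`, unknown in general; not even one `f_p` is known to be algebraic, for example for the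
algebraic Maass forms).  We prove that this follows from the existence of the Galois representations,
for one prime `ℓ` only:

* if for one prime number `ℓ` and every isomorphism `ι : ℚbar_ℓ ≅ ℂ` a continuous representation
  `Gal(ℚbar/ℚ) → GL_n(ℚbar_ℓ)` exists which is attached to `π` with respect to `ι` at all primes
  `p ≠ ℓ` outside of `B`, then there is a number field `K` such that `f_p` has coefficients in `K`
  for all `p ≠ ℓ` outside of `B`; if this holds for two primes `ℓ`, then for all `p` outside of `B`;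
* if it holds for all prime numbers `ℓ ≠ p`, then the eigenvalues of `a_{π_p}` are units in the ring
  of all algebraic integers with `p` inverted.

Nothing is assumed on `π` (the polynomials `f_p` are arbitrary complex polynomials), and the
representations need not be semisimple or de Rham at `ℓ`.

Proof.  A transcendental coefficient could be moved by an automorphism of `ℂ` to a number which is not
`ℓ`-integral; but the image of `Gal(ℚbar/ℚ)` is compact.  So all coefficients are algebraic, and there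
is one representation `ρ_g` for every `g ∈ Gal(ℚbar/ℚ)`, acting on the coefficients.  By Baire's
theorem (twice, and Krasner's lemma) the traces of the `ρ_g`, for all `g` in an open set, lie in one
finite extension of `ℚ_ℓ`.  By Faltings' argument, with the theorems of Hermite–Minkowski and
Chebotarev, finitely many Frobenius traces determine `ρ_g` up to semisimplification, so that `ρ_g`
does not depend on `g` in a smaller open set.
-/

set_option autoImplicit false

namespace Pool.Agent.Results.MP_ef641d_nt.ExistenceImpliesArithmetic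

open NumberField Polynomial Matrix

/-- `Q` is a prime ideal above the prime number `p` of the ring of all algebraic integers. -/
def PrimeOver (p : ℕ) (Q : Ideal (𝓞 (AlgebraicClosure ℚ))) : Prop :=
  Q.IsPrime ∧ (p : 𝓞 (AlgebraicClosure ℚ)) ∈ Q

/-- `g` is in the inertia group at `Q`. -/
def IsInertia (Q : Ideal (𝓞 (AlgebraicClosure ℚ))) (g : Gal(AlgebraicClosure ℚ/ℚ)) : Prop :=
  ∀ x : 𝓞 (AlgebraicClosure ℚ), g • x - x ∈ Q

/-- `g` is an (arithmetic) Frobenius element at the prime ideal `Q` above `p`. -/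
def IsFrobenius (p : ℕ) (Q : Ideal (𝓞 (AlgebraicClosure ℚ))) (g : Gal(AlgebraicClosure ℚ/ℚ)) :
    Prop := ∀ x : 𝓞 (AlgebraicClosure ℚ), g • x - x ^ p ∈ Q

variable {ℓ : ℕ} [Fact ℓ.Prime] {n : ℕ}

/-- The matrix of `g`. -/
noncomputable def mat (ρ : Gal(AlgebraicClosure ℚ/ℚ) →* GL (Fin n) (PadicAlgCl ℓ))
    (g : Gal(AlgebraicClosure ℚ/ℚ)) : Matrix (Fin n) (Fin n) (PadicAlgCl ℓ) :=
  (ρ g : GL (Fin n) (PadicAlgCl ℓ))

/-- The representation `ρ` is unramified at `p`, and the characteristic polynomial of every geometric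
Frobenius element at `p` is the polynomial `ι⁻¹ f`. -/
structure AttachedAt (ρ : Gal(AlgebraicClosure ℚ/ℚ) →* GL (Fin n) (PadicAlgCl ℓ))
    (ι : PadicAlgCl ℓ ≃+* ℂ) (p : ℕ) (f : ℂ[X]) : Prop where
  unramified : ∀ Q, PrimeOver p Q → ∀ g, IsInertia Q g → ρ g = 1
  frobenius : ∀ Q, PrimeOver p Q → ∀ g, IsFrobenius p Q g →
    (mat ρ g⁻¹).charpoly = f.map ι.symm.toRingHom

/-- The family of complex polynomials `f` has attached representations for the prime number `ℓ`:
for every isomorphism `ι : ℚbar_ℓ ≅ ℂ` there is a continuous `n`-dimensional representation attached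
to `f p` with respect to `ι` for all prime numbers `p ≠ ℓ` which are not in `B`. -/
def HasRepresentations (n : ℕ) (B : Set ℕ) (f : ℕ → ℂ[X]) (ℓ : ℕ) : Prop :=
  ∃ _ : Fact ℓ.Prime, ∀ ι : PadicAlgCl ℓ ≃+* ℂ,
    ∃ ρ : Gal(AlgebraicClosure ℚ/ℚ) →* GL (Fin n) (PadicAlgCl ℓ), Continuous ρ ∧
      ∀ p, p.Prime → p ∉ B → p ≠ ℓ → AttachedAt ρ ι p (f p)

/-- **Existence of Galois representations implies arithmeticity.**

Let `B` be a finite set and `f p`, for the prime numbers `p` not in `B`, complex polynomials.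

There is a number field `K ⊆ ℂ` which contains the coefficients of `f p` for all prime numbers
`p ∉ B` such that the family has attached representations for at least one prime number `ℓ ≠ p`.
If the family has attached representations for all prime numbers `ℓ ≠ p`, then the roots `z` of `f p`
are units away from `p`: for some `k` the numbers `p ^ k z` and `p ^ k z⁻¹` are algebraic
integers. -/
theorem result {n : ℕ} (hn : 0 < n) (B : Set ℕ) (hB : B.Finite) (f : ℕ → ℂ[X]) :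
    (∃ K : IntermediateField ℚ ℂ, FiniteDimensional ℚ K ∧
      ∀ p, p.Prime → p ∉ B → (∃ ℓ, ℓ ≠ p ∧ HasRepresentations n B f ℓ) →
        ∀ i, (f p).coeff i ∈ K) ∧
    ∀ p, p.Prime → p ∉ B → (∀ ℓ, ℓ.Prime → ℓ ≠ p → HasRepresentations n B f ℓ) →
      ∀ z ∈ (f p).roots, ∃ k : ℕ, IsIntegral ℤ ((p : ℂ) ^ k * z) ∧
        IsIntegral ℤ ((p : ℂ) ^ k * z⁻¹) := by
  classical
  have key : ∀ ℓ, HasRepresentations n B f ℓ →
      (∃ K : IntermediateField ℚ ℂ, FiniteDimensional ℚ K ∧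
        ∀ p, p.Prime → p ∉ B → p ≠ ℓ → ∀ i, (f p).coeff i ∈ K) ∧
      ∀ (_ : Fact ℓ.Prime), ∀ p, p.Prime → p ∉ B → p ≠ ℓ → ∀ z ∈ (f p).roots,
        ∀ ι : PadicAlgCl ℓ ≃+* ℂ, ‖ι.symm z‖ = 1 := by
    rintro ℓ ⟨hℓ, h⟩
    obtain ⟨ι₀⟩ := Pool.Agent.R401.Iso.exists_iso ℓ
    obtain ⟨h1, h2⟩ := Pool.Agent.R401.Arith.arith hn hB f ι₀ (by
      intro ι
      obtain ⟨ρ, hρ, hatt⟩ := h ι
      exact ⟨ρ, hρ, fun p hp hpB hpℓ =>
        ⟨fun Q hQ hpQ g hg => (hatt p hp hpB hpℓ).unramified Q ⟨hQ, hpQ⟩ g hg,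
          fun Q hQ hpQ g hg => (hatt p hp hpB hpℓ).frobenius Q ⟨hQ, hpQ⟩ g hg⟩⟩)
    exact ⟨h1, fun _ => h2⟩
  -- two primes are enough
  have hfield : ∃ K : IntermediateField ℚ ℂ, FiniteDimensional ℚ K ∧
      ∀ p, p.Prime → p ∉ B → (∃ ℓ, ℓ ≠ p ∧ HasRepresentations n B f ℓ) →
        ∀ i, (f p).coeff i ∈ K := by
    by_cases h1 : ∃ ℓ₁, HasRepresentations n B f ℓ₁
    · obtain ⟨ℓ₁, hℓ₁⟩ := h1
      obtain ⟨⟨K₁, hK₁, hmem₁⟩, -⟩ := key ℓ₁ hℓ₁
      by_cases h2 : ∃ ℓ₂, ℓ₂ ≠ ℓ₁ ∧ HasRepresentations n B f ℓ₂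
      · obtain ⟨ℓ₂, hne, hℓ₂⟩ := h2
        obtain ⟨⟨K₂, hK₂, hmem₂⟩, -⟩ := key ℓ₂ hℓ₂
        refine ⟨K₁ ⊔ K₂, inferInstance, fun p hp hpB _ i => ?_⟩
        by_cases hp1 : p = ℓ₁
        · have hp2 : p ≠ ℓ₂ := fun h => hne (h.symm.trans hp1)
          exact (le_sup_right : K₂ ≤ K₁ ⊔ K₂) (hmem₂ p hp hpB hp2 i)
        · exact (le_sup_left : K₁ ≤ K₁ ⊔ K₂) (hmem₁ p hp hpB hp1 i)
      · push Not at h2
        refine ⟨K₁, hK₁, fun p hp hpB hex i => hmem₁ p hp hpB ?_ i⟩
        rintro rfl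
        obtain ⟨ℓ, hℓp, hℓ⟩ := hex
        exact h2 ℓ hℓp hℓ
    · refine ⟨⊥, inferInstance, fun p _ _ hex => ?_⟩
      obtain ⟨ℓ, -, hℓ⟩ := hex
      exact absurd ⟨ℓ, hℓ⟩ h1
  refine ⟨hfield, fun p hp hpB hall z hz => ?_⟩
  -- the roots are algebraic
  obtain ⟨K, hK, hmem⟩ := hfield
  have hex : ∃ ℓ, ℓ ≠ p ∧ HasRepresentations n B f ℓ := by
    by_cases hp2 : p = 2
    · exact ⟨3, by omega, hall 3 Nat.prime_three (by omega)⟩
    · exact ⟨2, fun h => hp2 h.symm, hall 2 Nat.prime_two (fun h => hp2 h.symm)⟩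
  have hcoeff := hmem p hp hpB hex
  have halgK : ∀ x ∈ K, IsAlgebraic ℚ x := fun x hx => by
    have h1 : IsAlgebraic ℚ (⟨x, hx⟩ : K) := Algebra.IsAlgebraic.isAlgebraic _
    exact h1.algebraMap
  have hzalg : IsAlgebraic ℚ z := by
    have hf0 : f p ≠ 0 := by
      intro h0
      rw [h0, roots_zero] at hz
      exact absurd hz (Multiset.notMem_zero z)
    obtain ⟨g, hg⟩ : ∃ g : K[X], g.map (algebraMap K ℂ) = f p := by
      rw [← mem_lifts, lifts_iff_coeff_lifts]
      intro i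
      exact ⟨⟨_, hcoeff i⟩, rfl⟩
    have h1 : IsAlgebraic K z := by
      refine ⟨g, ?_, ?_⟩
      · rintro rfl
        rw [Polynomial.map_zero] at hg
        exact hf0 hg.symm
      · rw [← eval_map_algebraMap, hg]
        exact isRoot_of_mem_roots hz
    exact h1.restrictScalars ℚ
  have hnorm : ∀ (ℓ : ℕ) [Fact ℓ.Prime], ℓ ≠ p → ∀ ι : PadicAlgCl ℓ ≃+* ℂ, ‖ι.symm z‖ = 1 := by
    intro ℓ hℓ hℓp ι
    exact (key ℓ (hall ℓ hℓ.out hℓp)).2 hℓ p hp hpB (Ne.symm hℓp) z hz ι
  obtain ⟨k₁, hk₁⟩ := Pool.Agent.R401.Arith.integral_of_norm hzalg (p := p)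
    (fun ℓ _ hℓp ι => (hnorm ℓ hℓp ι).le)
  obtain ⟨k₂, hk₂⟩ := Pool.Agent.R401.Arith.integral_of_norm hzalg.inv (p := p)
    (fun ℓ _ hℓp ι => by rw [map_inv₀, norm_inv, hnorm ℓ hℓp ι, inv_one])
  have hpint : ∀ k : ℕ, IsIntegral ℤ ((p : ℂ) ^ k) := fun k => (isIntegral_natCast (R := ℤ) p).pow k
  refine ⟨k₁ + k₂, ?_, ?_⟩
  · have h1 : (p : ℂ) ^ (k₁ + k₂) * z = (p : ℂ) ^ k₂ * ((p : ℂ) ^ k₁ * z) := by ring
    rw [h1]
    exact (hpint k₂).mul hk₁
  · have h1 : (p : ℂ) ^ (k₁ + k₂) * z⁻¹ = (p : ℂ) ^ k₁ * ((p : ℂ) ^ k₂ * z⁻¹) := by ring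
    rw [h1]
    exact (hpint k₁).mul hk₂

end Pool.Agent.Results.MP_ef641d_nt.ExistenceImpliesArithmetic
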