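import Pool.Agent.R401.OneMain

/-!
# Galois type: one prime `ℓ` is enough

Let `π` be a cuspidal automorphic representation of `GL_n` over `ℚ` which is algebraic of Galois
type: the Langlands parameter of `π_∞ ⊗ |det|^((1-n)/2)` is trivial on `ℂ^×`.  Suppose that the
characteristic polynomials `f_p` of the classes `a_{π_p}` have coefficients in the ring of integers
of a number field `K`, and that for every embedding `σ` of `K` the traces satisfy the mean square
bound of Rankin and Selberg, `∑_{p ≤ x} |σ(tr f_p)|^2 = O(π(x))`.  We prove: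

* every continuous semisimple `ℓ`-adic representation attached to `π` has finite image;
* if such a representation exists for one prime number `ℓ` and one embedding of `K` in `ℚbar_ℓ`,
  then the representations `ρ_π` exist for all prime numbers `ℓ'` and all isomorphisms
  `ℚbar_ℓ' ≅ ℂ`; they correspond to `π_p` at every unramified prime `p ≠ ℓ` (also at `p = ℓ'`);
* if it exists for two different primes `ℓ`, there is no exception.

No bound for single Satake parameters (Ramanujan's conjecture) and nothing about the Hodge–Tate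
weights is used: the finiteness of the image comes from the mean square bound alone, by a counting
argument with the trace form and Chebotarev's theorem (proved in the library).
-/

set_option autoImplicit false

namespace Pool.Agent.Results.MP_ef641d_nt.OnePrimeGivesAll

open NumberField Polynomial Matrix

/-- `Q` is a prime ideal above the prime number `p` of the ring of all algebraic integers. -/
def PrimeOver (p : ℕ) (Q : Ideal (𝓞 (AlgebraicClosure ℚ))) : Prop :=
  Q.IsPrime ∧ (p : 𝓞 (AlgebraicClosure ℚ)) ∈ Q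

/-- `g` is in the inertia group at `Q`. -/
def IsInertia (Q : Ideal (𝓞 (AlgebraicClosure ℚ))) (g : Gal(AlgebraicClosure ℚ/ℚ)) : Prop :=
  ∀ x : 𝓞 (AlgebraicClosure ℚ), g • x - x ∈ Q

/-- `g` is an (arithmetic) Frobenius element at the prime ideal `Q` above `p`. -/
def IsFrobenius (p : ℕ) (Q : Ideal (𝓞 (AlgebraicClosure ℚ))) (g : Gal(AlgebraicClosure ℚ/ℚ)) :
    Prop := ∀ x : 𝓞 (AlgebraicClosure ℚ), g • x - x ^ p ∈ Q

section
variable {ℓ : ℕ} [Fact ℓ.Prime] {n : ℕ}

/-- The matrix of `g`. -/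
noncomputable def mat (ρ : Gal(AlgebraicClosure ℚ/ℚ) →* GL (Fin n) (PadicAlgCl ℓ))
    (g : Gal(AlgebraicClosure ℚ/ℚ)) : Matrix (Fin n) (Fin n) (PadicAlgCl ℓ) :=
  (ρ g : GL (Fin n) (PadicAlgCl ℓ))

/-- The representation `ρ` is unramified at `p`, and every geometric Frobenius element at `p` has
the characteristic polynomial `f`. -/
structure AttachedAt (ρ : Gal(AlgebraicClosure ℚ/ℚ) →* GL (Fin n) (PadicAlgCl ℓ)) (p : ℕ)
    (f : (PadicAlgCl ℓ)[X]) : Prop where
  unramified : ∀ Q, PrimeOver p Q → ∀ g, IsInertia Q g → ρ g = 1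
  frobenius : ∀ Q, PrimeOver p Q → ∀ g, IsFrobenius p Q g → (mat ρ g⁻¹).charpoly = f

/-- `U` is a subrepresentation of `ρ`. -/
def Stable (ρ : Gal(AlgebraicClosure ℚ/ℚ) →* GL (Fin n) (PadicAlgCl ℓ))
    (U : Submodule (PadicAlgCl ℓ) (Fin n → PadicAlgCl ℓ)) : Prop := ∀ g, ∀ x ∈ U, mat ρ g *ᵥ x ∈ U

/-- `ρ` is semisimple. -/
def Semisimple (ρ : Gal(AlgebraicClosure ℚ/ℚ) →* GL (Fin n) (PadicAlgCl ℓ)) : Prop :=
  ∀ U, Stable ρ U → ∃ U', Stable ρ U' ∧ IsCompl U U'

/-- The kernel of `ρ` is open: the image of `ρ` is finite and `ρ` is continuous for the discrete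
topology. -/
def OpenKernel (ρ : Gal(AlgebraicClosure ℚ/ℚ) →* GL (Fin n) (PadicAlgCl ℓ)) : Prop :=
  IsOpen (ρ.ker : Set Gal(AlgebraicClosure ℚ/ℚ))

/-- `ρ` is attached to the family of polynomials `f` with respect to the embedding `τ` of `K` in
`ℚbar_ℓ`: it is continuous, semisimple, and attached to `τ(f p)` at all prime numbers `p ≠ ℓ` which
are not in `B`. -/
structure IsAttached {K : Type} [Field K] (B : Set ℕ) (f : ℕ → (𝓞 K)[X]) (τ : K →+* PadicAlgCl ℓ)
    (ρ : Gal(AlgebraicClosure ℚ/ℚ) →* GL (Fin n) (PadicAlgCl ℓ)) : Prop where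
  continuous : Continuous ρ
  semisimple : Semisimple ρ
  attached : ∀ p, p.Prime → p ∉ B → p ≠ ℓ →
    AttachedAt ρ p ((f p).map (τ.comp (algebraMap (𝓞 K) K)))

end

/-- For the prime number `ℓ` and some embedding of `K` in `ℚbar_ℓ` there is an attached
representation. -/
def ExistsFor {K : Type} [Field K] (n : ℕ) (B : Set ℕ) (f : ℕ → (𝓞 K)[X]) (ℓ : ℕ) : Prop :=
  ∃ (_ : Fact ℓ.Prime) (τ : K →+* PadicAlgCl ℓ)
    (ρ : Gal(AlgebraicClosure ℚ/ℚ) →* GL (Fin n) (PadicAlgCl ℓ)), IsAttached B f τ ρ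

/-- The prime numbers up to `x` which are not in the set `B`. -/
def primesUpTo (B : Set ℕ) (x : ℕ) : Set ℕ := {p | p ≤ x ∧ p.Prime ∧ p ∉ B}

/-- **One prime is enough.**

Let `B` be a finite set of primes (in the application the primes where `π` is ramified), `K` a
number field and `f p`, for the primes `p ∉ B`, polynomials over the ring of integers of `K` (in the
application, with an embedding of `K` in `ℂ`, the characteristic polynomial of the class
`a_{π_p}`), such that for every embedding of `K` in `ℂ` the mean square over the primes `p ≤ x` of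
the coefficient of degree `n - 1` of `f p` (up to the sign the trace) is bounded.

Then every continuous semisimple `ℓ`-adic representation attached to the family has finite image;
and if there is one for at least one prime number `ℓ` and one embedding of `K`, then for every prime
number `ℓ'`, isomorphism `ι : ℚbar_ℓ' ≅ ℂ` and embedding `σ : K → ℂ` there is a continuous
semisimple `ρ : Gal(ℚbar/ℚ) → GL_n(ℚbar_ℓ')`, with finite image, attached to `ι⁻¹(σ(f p))` for all
primes `p ∉ B` such that a representation is given for some `ℓ ≠ p`. -/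
theorem result {K : Type} [Field K] [NumberField K] {n : ℕ} (hn : 0 < n) (B : Set ℕ)
    (hB : B.Finite) (f : ℕ → (𝓞 K)[X])
    (hRS : ∀ σ : K →+* ℂ, ∃ C : ℝ, ∀ x : ℕ,
      ∑ᶠ p ∈ primesUpTo B x, ‖σ ((f p).coeff (n - 1))‖ ^ 2 ≤ C * Nat.primeCounting x) :
    (∀ (ℓ : ℕ) [Fact ℓ.Prime] (τ : K →+* PadicAlgCl ℓ)
      (ρ : Gal(AlgebraicClosure ℚ/ℚ) →* GL (Fin n) (PadicAlgCl ℓ)),
      IsAttached B f τ ρ → OpenKernel ρ) ∧
    ((∃ ℓ, ExistsFor n B f ℓ) →
      ∀ (ℓ' : ℕ) [Fact ℓ'.Prime] (ι : PadicAlgCl ℓ' ≃+* ℂ) (σ : K →+* ℂ),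
      ∃ ρ : Gal(AlgebraicClosure ℚ/ℚ) →* GL (Fin n) (PadicAlgCl ℓ'), Continuous ρ ∧
        OpenKernel ρ ∧ Semisimple ρ ∧
        ∀ p, p.Prime → p ∉ B → (∃ ℓ, ℓ ≠ p ∧ ExistsFor n B f ℓ) → AttachedAt ρ p
          ((f p).map (ι.symm.toRingHom.comp (σ.comp (algebraMap (𝓞 K) K))))) := by
  have hfin : ∀ (ℓ : ℕ) [Fact ℓ.Prime] (τ : K →+* PadicAlgCl ℓ)
      (ρ : Gal(AlgebraicClosure ℚ/ℚ) →* GL (Fin n) (PadicAlgCl ℓ)),
      IsAttached B f τ ρ → OpenKernel ρ := by
    intro ℓ _ τ ρ h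
    exact Pool.Agent.R401.DS.finite hn hB f hRS (Set.finite_singleton ℓ)
      (τ.comp (algebraMap (𝓞 K) K)) ρ h.continuous h.semisimple (fun p hp hpB hpℓ =>
        ⟨fun Q hQ hpQ g hg => (h.attached p hp hpB hpℓ).unramified Q ⟨hQ, hpQ⟩ g hg,
          fun Q hQ hpQ g hg => (h.attached p hp hpB hpℓ).frobenius Q ⟨hQ, hpQ⟩ g hg⟩)
  refine ⟨hfin, ?_⟩
  -- descent
  have hdesc : ∀ ℓ, ExistsFor n B f ℓ → ∃ (L : Type) (_ : Field L) (_ : Algebra K L),
      FiniteDimensional K L ∧ ∃ R : Pool.Agent.W569.FM.GF ℚ →* GL (Fin n) L,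
        IsOpen (R.ker : Set (Pool.Agent.W569.FM.GF ℚ)) ∧ ∀ p, p.Prime → p ∉ B ∪ {ℓ} →
          Pool.Agent.R401.DS.Att R p
            ((f p).map ((algebraMap K L).comp (algebraMap (𝓞 K) K))) := by
    rintro ℓ ⟨_, τ, ρ, h⟩
    refine Pool.Agent.R401.DS.descend f (hB.union (Set.finite_singleton ℓ))
      (τ.comp (algebraMap (𝓞 K) K)) ρ (hfin ℓ τ ρ h) fun p hp hpB => ?_
    simp only [Set.mem_union, Set.mem_singleton_iff, not_or] at hpB
    exact ⟨fun Q hQ hpQ g hg => (h.attached p hp hpB.1 hpB.2).unramified Q ⟨hQ, hpQ⟩ g hg,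
      fun Q hQ hpQ g hg => (h.attached p hp hpB.1 hpB.2).frobenius Q ⟨hQ, hpQ⟩ g hg⟩
  rintro ⟨ℓ₀, hℓ₀⟩ ℓ' _ ι σ
  obtain ⟨L, iL, iA, hfd, R, hRo, hR⟩ := hdesc ℓ₀ hℓ₀
  have hzero : CharZero L := charZero_of_injective_algebraMap (algebraMap K L).injective
  -- the good primes
  have hR' : ∀ p, p.Prime → p ∉ B → (∃ ℓ, ℓ ≠ p ∧ ExistsFor n B f ℓ) →
      Pool.Agent.R401.DS.Att R p ((f p).map ((algebraMap K L).comp (algebraMap (𝓞 K) K))) := by
    rintro p hp hpB ⟨ℓ, hℓp, hℓ⟩
    obtain ⟨L₂, iL₂, iA₂, hfd₂, R₂, hRo₂, hR₂⟩ := hdesc ℓ hℓ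
    have hzero₂ : CharZero L₂ := charZero_of_injective_algebraMap (algebraMap K L₂).injective
    have h1 := Pool.Agent.R401.DS.merge (K := K) (f := fun p => (f p).map (algebraMap (𝓞 K) K))
      (hB.union (Set.finite_singleton ℓ₀)) (hB.union (Set.finite_singleton ℓ)) R R₂ hRo hRo₂
      (fun p hp hpB => by
        have := hR p hp hpB
        rwa [← Polynomial.map_map] at this)
      (fun p hp hpB => by
        have := hR₂ p hp hpB
        rwa [← Polynomial.map_map] at this) p hp (Or.inr (by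
        simp only [Set.mem_union, Set.mem_singleton_iff, not_or]
        exact ⟨hpB, fun h => hℓp h.symm⟩))
    rwa [Polynomial.map_map] at h1
  let _ : Algebra K (PadicAlgCl ℓ') := (ι.symm.toRingHom.comp σ).toAlgebra
  have : Algebra.IsAlgebraic K L := Algebra.IsAlgebraic.of_finite K L
  let j : L →ₐ[K] PadicAlgCl ℓ' := IsAlgClosed.lift
  have hj : ∀ x : K, j (algebraMap K L x) = ι.symm (σ x) := fun x => j.commutes x
  set ρ : Gal(AlgebraicClosure ℚ/ℚ) →* GL (Fin n) (PadicAlgCl ℓ') :=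
    (Matrix.GeneralLinearGroup.map j.toRingHom).comp R with hρ
  have hker : ∀ g, R g = 1 → ρ g = 1 := by
    intro g hg
    change Matrix.GeneralLinearGroup.map j.toRingHom (R g) = 1
    rw [hg, map_one]
  have hopen : OpenKernel ρ := Subgroup.isOpen_mono (H₁ := R.ker) (fun g hg => hker g hg) hRo
  have hmat : ∀ g, mat ρ g = (Pool.Agent.R401.Img.mt R g).map j.toRingHom := fun g => rfl
  refine ⟨ρ, ?_, hopen, ?_, ?_⟩
  · exact Pool.Agent.R401.Img.continuous_of_open ρ hopen
  · exact Pool.Agent.R401.Img.SS_of_open ρ hopen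
  · intro p hp hpB hpℓ
    constructor
    · intro Q hQ g hg
      exact hker g ((hR' p hp hpB hpℓ).unr Q hQ.1 hQ.2 g hg)
    · intro Q hQ g hg
      rw [hmat, Matrix.charpoly_map]
      have h1 := (hR' p hp hpB hpℓ).frob Q hQ.1 hQ.2 g hg
      refine (congrArg (Polynomial.map j.toRingHom) h1).trans ?_
      rw [Polynomial.map_map]
      congr 1
      ext x
      exact hj _

end Pool.Agent.Results.MP_ef641d_nt.OnePrimeGivesAll
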